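import Pool.Agent.Helper29.QP.Defs

/-!
# QP-L3: rank inequality for vectors on the edges of a graph without cut vertices
-/

set_option autoImplicit false

open MonoidAlgebra Module

namespace Pool.Agent.Helper47.QPL3

open Pool.Agent.Helper29.QP

universe u

section comb

variable {Vt : Type} [DecidableEq Vt] (adj : Vt → Vt → Prop)

/-- connected vertex sets -/
def Conn (Y : Finset Vt) : Prop :=
  ∀ Z : Finset Vt, Z ⊆ Y → Z.Nonempty → Z ≠ Y → ∃ x ∈ Z, ∃ y ∈ Y \ Z, adj x y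

variable {adj}

theorem exists_next (hs : ∀ x y, adj x y → adj y x)
    (hNC : ∀ (c : Vt) (Z : Finset Vt), c ∉ Z → (∀ x ∈ Z, ∀ y, adj x y → y ∈ Z ∨ y = c) →
      (∃ y ∈ Z, adj c y) → ∀ y, adj c y → y ∈ Z)
    (B Y : Finset Vt) (hYB : Y ⊆ B) (hB : Conn adj B) (hY : Conn adj Y) (hne : Y ≠ B)
    (h2 : 2 ≤ Y.card) (hcl : ∀ x ∈ B, ∀ y, adj x y → y ∈ B) :
    ∃ v ∈ Y, (∃ u ∈ B \ Y, adj v u) ∧ Conn adj (Y.erase v) := by
  classical
  -- pairs
  let Pr : Vt → Finset Vt → Prop := fun c Z => c ∈ Y ∧ Z ⊆ Y.erase c ∧ Z.Nonempty ∧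
    ∀ x ∈ Z, ∀ y ∈ Y, adj x y → y ∈ Z ∨ y = c
  have hex : ∃ n : ℕ, ∃ c Z, Pr c Z ∧ Z.card = n := by
    have h1 : Y.Nonempty := Finset.card_pos.1 (by omega)
    obtain ⟨c, hc⟩ := h1
    refine ⟨_, c, Y.erase c, ⟨hc, subset_rfl, ?_, ?_⟩, rfl⟩
    · apply Finset.card_pos.1
      rw [Finset.card_erase_of_mem hc]
      omega
    · intro x _ y hy _
      by_cases hyc : y = c
      · exact Or.inr hyc
      · exact Or.inl (Finset.mem_erase.2 ⟨hyc, hy⟩)
  obtain ⟨c, Z, ⟨hcY, hZY, hZne, hZ⟩, hcard⟩ := Nat.find_spec hex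
  have hmin : ∀ c' Z', Pr c' Z' → Z.card ≤ Z'.card := by
    intro c' Z' h
    rw [hcard]
    exact Nat.find_min' hex ⟨c', Z', h, rfl⟩
  have hcZ : c ∉ Z := fun h => (Finset.mem_erase.1 (hZY h)).1 rfl
  have hZY' : Z ⊆ Y := hZY.trans (Finset.erase_subset _ _)
  have hZneY : Z ≠ Y := by
    rintro rfl
    exact hcZ hcY
  -- an edge from `Z` to the outside of `Y`
  have h1 : ∃ v ∈ Z, ∃ u ∈ B \ Y, adj v u := by
    by_contra hcon
    push Not at hcon
    have h3 : ∀ x ∈ Z, ∀ y, adj x y → y ∈ Z ∨ y = c := by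
      intro x hx y hxy
      have hyB : y ∈ B := hcl x (hYB (hZY' hx)) y hxy
      by_cases hyY : y ∈ Y
      · exact hZ x hx y hyY hxy
      · exact absurd hxy (hcon x hx y (Finset.mem_sdiff.2 ⟨hyB, hyY⟩))
    have h4 : ∃ y ∈ Z, adj c y := by
      obtain ⟨x, hx, y, hy, hxy⟩ := hY Z hZY' hZne hZneY
      rw [Finset.mem_sdiff] at hy
      rcases h3 x hx y hxy with h | h
      · exact absurd h hy.2
      · subst h
        exact ⟨x, hx, hs _ _ hxy⟩
    have h5 := hNC c Z hcZ h3 h4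
    -- an edge from `c` to the outside of `Z`
    by_cases hYZ : insert c Z = Y
    · obtain ⟨x, hx, y, hy, hxy⟩ := hB Y hYB ⟨c, hcY⟩ hne
      rw [← hYZ, Finset.mem_insert] at hx
      rcases hx with rfl | hx
      · have h6 := h5 y hxy
        exact (Finset.mem_sdiff.1 hy).2 (hZY' h6)
      · exact hcon x hx y hy hxy
    · obtain ⟨x, hx, y, hy, hxy⟩ := hY (insert c Z) (Finset.insert_subset hcY hZY')
        ⟨c, Finset.mem_insert_self c Z⟩ hYZ
      rw [Finset.mem_sdiff, Finset.mem_insert, not_or] at hy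
      rw [Finset.mem_insert] at hx
      rcases hx with rfl | hx
      · exact hy.2.2 (h5 y hxy)
      · rcases h3 x hx y hxy with h | h
        · exact hy.2.2 h
        · exact hy.2.1 h
  obtain ⟨v, hvZ, hu⟩ := h1
  refine ⟨v, hZY' hvZ, hu, ?_⟩
  -- connectedness of `Y \ v`
  have key : ∀ Z' : Finset Vt, Z' ⊆ Y.erase v → Z'.Nonempty → c ∉ Z' →
      ¬ (∀ x ∈ Z', ∀ y ∈ Y.erase v \ Z', ¬ adj x y) := by
    intro Z' h3 h4 h5 h6
    have h7 : ∀ x ∈ Z', ∀ y ∈ Y, adj x y → y ∈ Z' ∨ y = v := by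
      intro x hx y hy hxy
      by_contra hcon
      rw [not_or] at hcon
      exact h6 x hx y (Finset.mem_sdiff.2 ⟨Finset.mem_erase.2 ⟨hcon.2, hy⟩, hcon.1⟩) hxy
    have hvZ' : v ∉ Z' := fun h => (Finset.mem_erase.1 (h3 h)).1 rfl
    have hZ'Y : Z' ⊆ Y := h3.trans (Finset.erase_subset _ _)
    by_cases h8 : (Z' ∩ Z).Nonempty
    · have h9 : Pr v (Z' ∩ Z) := by
        refine ⟨hZY' hvZ, Finset.inter_subset_left.trans h3, h8, ?_⟩
        intro x hx y hy hxy
        rw [Finset.mem_inter] at hx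
        rcases h7 x hx.1 y hy hxy with h | h
        · rcases hZ x hx.2 y hy hxy with h' | h'
          · exact Or.inl (Finset.mem_inter.2 ⟨h, h'⟩)
          · subst h'
            exact absurd h h5
        · exact Or.inr h
      have h10 := hmin _ _ h9
      have h11 : (Z' ∩ Z).card < Z.card := by
        apply Finset.card_lt_card
        rw [Finset.ssubset_iff_of_subset Finset.inter_subset_right]
        exact ⟨v, hvZ, fun h => hvZ' (Finset.mem_inter.1 h).1⟩
      omega
    · rw [Finset.not_nonempty_iff_eq_empty] at h8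
      have hZ'ne : Z' ≠ Y := by
        rintro rfl
        exact h5 hcY
      obtain ⟨x, hx, y, hy, hxy⟩ := hY Z' hZ'Y h4 hZ'ne
      rw [Finset.mem_sdiff] at hy
      rcases h7 x hx y hy.1 hxy with h | h
      · exact hy.2 h
      · subst h
        rcases hZ y hvZ x (hZ'Y hx) (hs _ _ hxy) with h' | h'
        · have : x ∈ Z' ∩ Z := Finset.mem_inter.2 ⟨hx, h'⟩
          rw [h8] at this
          exact absurd this (Finset.notMem_empty x)
        · subst h'
          exact h5 hx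
  intro Z' h3 h4 h5
  by_contra hcon
  push Not at hcon
  by_cases hc : c ∈ Z'
  · -- use the complement
    refine key (Y.erase v \ Z') Finset.sdiff_subset ?_ ?_ ?_
    · rw [Finset.sdiff_nonempty]
      intro h
      exact h5 (Finset.Subset.antisymm h3 h)
    · intro h
      exact (Finset.mem_sdiff.1 h).2 hc
    · intro x hx y hy hxy
      rw [Finset.mem_sdiff] at hy
      have hyZ' : y ∈ Z' := by
        by_contra hy'
        exact hy.2 (Finset.mem_sdiff.2 ⟨hy.1, hy'⟩)
      exact hcon y hyZ' x hx (hs _ _ hxy)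
  · exact key Z' h3 h4 hc hcon

theorem conn_erase (hs : ∀ x y, adj x y → adj y x) (hirr : ∀ x, ¬ adj x x)
    (hNC : ∀ (c : Vt) (Z : Finset Vt), c ∉ Z → (∀ x ∈ Z, ∀ y, adj x y → y ∈ Z ∨ y = c) →
      (∃ y ∈ Z, adj c y) → ∀ y, adj c y → y ∈ Z)
    (B : Finset Vt) (hB : Conn adj B) (hcl : ∀ x ∈ B, ∀ y, adj x y → y ∈ B)
    (v : Vt) (hv : v ∈ B) : Conn adj (B.erase v) := by
  intro Z h1 h2 h3
  by_contra hcon
  push Not at hcon
  have hvZ : v ∉ Z := fun h => (Finset.mem_erase.1 (h1 h)).1 rfl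
  have hZB : Z ⊆ B := h1.trans (Finset.erase_subset _ _)
  have h4 : ∀ x ∈ Z, ∀ y, adj x y → y ∈ Z ∨ y = v := by
    intro x hx y hxy
    by_contra hc
    rw [not_or] at hc
    exact hcon x hx y (Finset.mem_sdiff.2 ⟨Finset.mem_erase.2 ⟨hc.2, hcl x (hZB hx) y hxy⟩, hc.1⟩) hxy
  have h5 : ∃ y ∈ Z, adj v y := by
    obtain ⟨x, hx, y, hy, hxy⟩ := hB Z hZB h2 (by
      rintro rfl
      exact hvZ hv)
    rcases h4 x hx y hxy with h | h
    · exact absurd h (Finset.mem_sdiff.1 hy).2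
    · subst h
      exact ⟨x, hx, hs _ _ hxy⟩
  have h6 := hNC v Z hvZ h4 h5
  -- the complement of `Z` in `B \ v`
  obtain ⟨w, hw⟩ : (B.erase v \ Z).Nonempty := by
    rw [Finset.sdiff_nonempty]
    intro h
    exact h3 (Finset.Subset.antisymm h1 h)
  obtain ⟨x, hx, y, hy, hxy⟩ := hB (insert v Z) (Finset.insert_subset hv hZB)
    ⟨v, Finset.mem_insert_self v Z⟩ (by
      intro h
      rw [Finset.mem_sdiff, Finset.mem_erase, ← h, Finset.mem_insert] at hw
      rcases hw.1.2 with h' | h'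
      · exact hw.1.1 h'
      · exact hw.2 h')
  rw [Finset.mem_sdiff, Finset.mem_insert, not_or] at hy
  rw [Finset.mem_insert] at hx
  rcases hx with rfl | hx
  · exact hy.2.2 (h6 y hxy)
  · rcases h4 x hx y hxy with h | h
    · exact hy.2.2 h
    · exact hy.2.1 h

end comb

section rank

variable {K : Type u} [Field K] {E Vt : Type} [Fintype E] [Fintype Vt] {M : Type u}
  [AddCommGroup M] [Module K M] (a : E → M)

/-- the rank of a set of edges -/
noncomputable def rk (S : Set E) : ℕ := finrank K (Submodule.span K (a '' S))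

theorem fin_span (S : Set E) : FiniteDimensional K (Submodule.span K (a '' S)) :=
  FiniteDimensional.span_of_finite K ((Set.toFinite S).image a)

theorem rk_mono {S T : Set E} (h : S ⊆ T) : rk (K := K) a S ≤ rk (K := K) a T := by
  haveI := fin_span (K := K) a T
  exact Submodule.finrank_mono (Submodule.span_mono (Set.image_mono h))

theorem rk_submod {S T D : Set E} (hS : D ⊆ S) (hT : D ⊆ T) :
    rk (K := K) a (S ∪ T) + rk (K := K) a D ≤ rk (K := K) a S + rk (K := K) a T := by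
  haveI := fin_span (K := K) a T
  haveI := fin_span (K := K) a S
  have h := Submodule.finrank_sup_add_finrank_inf_eq (Submodule.span K (a '' S))
    (Submodule.span K (a '' T))
  have h' : finrank K (Submodule.span K (a '' D)) ≤
      finrank K (Submodule.span K (a '' S) ⊓ Submodule.span K (a '' T) : Submodule K M) :=
    Submodule.finrank_mono (le_inf (Submodule.span_mono (Set.image_mono hS))
      (Submodule.span_mono (Set.image_mono hT)))
  unfold rk
  rw [Set.image_union, Submodule.span_union]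
  omega

theorem rk_empty : rk (K := K) a ∅ = 0 := by
  unfold rk
  rw [Set.image_empty, Submodule.span_empty, finrank_bot]

variable (e0 e1 : E → Vt)

/-- edges at a vertex -/
def star (v : Vt) : Set E := {e | e0 e = v ∨ e1 e = v}

/-- edges meeting a vertex set -/
def Inc (W : Set Vt) : Set E := {e | e0 e ∈ W ∨ e1 e ∈ W}

/-- the potential -/
noncomputable def Th (W : Set Vt) : ℤ :=
  (rk (K := K) a (Inc e0 e1 W) : ℤ) - rk (K := K) a (Inc e0 e1 Wᶜ)

theorem Inc_insert (W : Set Vt) (v : Vt) :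
    Inc e0 e1 (insert v W) = Inc e0 e1 W ∪ star e0 e1 v := by
  ext e
  simp only [Inc, star, Set.mem_insert_iff, Set.mem_ofPred_eq, Set.mem_union]
  tauto

theorem Inc_compl (W : Set Vt) (v : Vt) (hv : v ∉ W) :
    Inc e0 e1 Wᶜ = Inc e0 e1 (insert v W)ᶜ ∪ star e0 e1 v := by
  ext e
  simp only [Inc, star, Set.mem_insert_iff, Set.mem_ofPred_eq, Set.mem_union, Set.mem_compl_iff,
    not_or]
  constructor
  · rintro (h | h)
    · by_cases h' : e0 e = v
      · exact Or.inr (Or.inl h')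
      · exact Or.inl (Or.inl ⟨h', h⟩)
    · by_cases h' : e1 e = v
      · exact Or.inr (Or.inr h')
      · exact Or.inl (Or.inr ⟨h', h⟩)
  · rintro ((h | h) | (h | h))
    · exact Or.inl h.2
    · exact Or.inr h.2
    · exact Or.inl (h ▸ hv)
    · exact Or.inr (h ▸ hv)

/-- one step -/
theorem Th_step (hne : ∀ e, e0 e ≠ e1 e) (W : Set Vt) (v : Vt) (hv : v ∉ W) :
    Th (K := K) a e0 e1 (insert v W) ≤ Th (K := K) a e0 e1 W +
      2 * rk (K := K) a (star e0 e1 v) - rk (K := K) a (star e0 e1 v ∩ Inc e0 e1 W) -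
        rk (K := K) a (star e0 e1 v \ (star e0 e1 v ∩ Inc e0 e1 W)) := by
  have h1 := rk_submod (K := K) a (S := Inc e0 e1 W) (T := star e0 e1 v)
    (D := star e0 e1 v ∩ Inc e0 e1 W) Set.inter_subset_right Set.inter_subset_left
  have h2 := rk_submod (K := K) a (S := Inc e0 e1 (insert v W)ᶜ) (T := star e0 e1 v)
    (D := star e0 e1 v \ (star e0 e1 v ∩ Inc e0 e1 W)) (by
      rintro e ⟨he1, he2⟩
      have he3 : e ∉ Inc e0 e1 W := fun h => he2 ⟨he1, h⟩
      simp only [Inc, Set.mem_ofPred_eq, not_or] at he3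
      simp only [Inc, Set.mem_ofPred_eq, Set.mem_compl_iff, Set.mem_insert_iff, not_or]
      rcases he1 with h | h
      · right
        exact ⟨fun h' => hne e (h.trans h'.symm), he3.2⟩
      · left
        exact ⟨fun h' => hne e (h'.trans h.symm), he3.1⟩) Set.diff_subset
  rw [← Inc_insert] at h1
  rw [← Inc_compl e0 e1 W v hv] at h2
  unfold Th
  omega

variable (hne : ∀ e, e0 e ≠ e1 e) (r : Vt → ℕ)
    (h1 : ∀ v, finrank K (Submodule.span K (a '' {e | e0 e = v ∨ e1 e = v})) ≤ r v)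
    (h2 : ∀ v, ∀ S : Set E, S ⊆ {e | e0 e = v ∨ e1 e = v} → S.Nonempty →
      ({e | e0 e = v ∨ e1 e = v} \ S).Nonempty →
      2 * finrank K (Submodule.span K (a '' {e | e0 e = v ∨ e1 e = v})) + 1 ≤
        finrank K (Submodule.span K (a '' S)) +
        finrank K (Submodule.span K (a '' ({e | e0 e = v ∨ e1 e = v} \ S))) + r v)

include hne h1 h2 in
theorem Th_le (W : Set Vt) (v : Vt) (hv : v ∉ W) :
    Th (K := K) a e0 e1 (insert v W) ≤ Th (K := K) a e0 e1 W + r v := by
  have h3 := Th_step (K := K) a e0 e1 hne W v hv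
  have h4 : rk (K := K) a (star e0 e1 v) ≤ r v := h1 v
  by_cases hA : (star e0 e1 v ∩ Inc e0 e1 W).Nonempty
  · by_cases hB : (star e0 e1 v \ (star e0 e1 v ∩ Inc e0 e1 W)).Nonempty
    · have h5 : 2 * rk (K := K) a (star e0 e1 v) + 1 ≤
          rk (K := K) a (star e0 e1 v ∩ Inc e0 e1 W) +
          rk (K := K) a (star e0 e1 v \ (star e0 e1 v ∩ Inc e0 e1 W)) + r v :=
        h2 v _ Set.inter_subset_left hA hB
      omega
    · rw [Set.not_nonempty_iff_eq_empty] at hB
      have h6 : star e0 e1 v ∩ Inc e0 e1 W = star e0 e1 v :=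
        Set.Subset.antisymm Set.inter_subset_left (Set.diff_eq_empty.1 hB)
      rw [hB, h6, rk_empty] at h3
      push_cast at h3
      omega
  · rw [Set.not_nonempty_iff_eq_empty] at hA
    rw [hA, Set.diff_empty, rk_empty] at h3
    push_cast at h3
    omega

include hne h2 in
theorem Th_lt (W : Set Vt) (v : Vt) (hv : v ∉ W)
    (hA : (star e0 e1 v ∩ Inc e0 e1 W).Nonempty)
    (hB : (star e0 e1 v \ (star e0 e1 v ∩ Inc e0 e1 W)).Nonempty) :
    Th (K := K) a e0 e1 (insert v W) ≤ Th (K := K) a e0 e1 W + r v - 1 := by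
  have h3 := Th_step (K := K) a e0 e1 hne W v hv
  have h5 : 2 * rk (K := K) a (star e0 e1 v) + 1 ≤
      rk (K := K) a (star e0 e1 v ∩ Inc e0 e1 W) +
      rk (K := K) a (star e0 e1 v \ (star e0 e1 v ∩ Inc e0 e1 W)) + r v :=
    h2 v _ Set.inter_subset_left hA hB
  omega

/-- adjacency -/
def Adj (x y : Vt) : Prop := ∃ e, (e0 e = x ∧ e1 e = y) ∨ (e1 e = x ∧ e0 e = y)

omit [Fintype E] [Fintype Vt] in
theorem Adj_symm (x y : Vt) (h : Adj e0 e1 x y) : Adj e0 e1 y x := by
  obtain ⟨e, h | h⟩ := h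
  · exact ⟨e, Or.inr ⟨h.2, h.1⟩⟩
  · exact ⟨e, Or.inl ⟨h.2, h.1⟩⟩

theorem noCut_adj (hNC : NoCut e0 e1) (c : Vt) (Z : Finset Vt) (hc : c ∉ Z)
    (h3 : ∀ x ∈ Z, ∀ y, Adj e0 e1 x y → y ∈ Z ∨ y = c)
    (h4 : ∃ y ∈ Z, Adj e0 e1 c y) (y : Vt) (hy : Adj e0 e1 c y) : y ∈ Z := by
  by_contra hyZ
  refine hNC c (Z : Set Vt) (by simpa using hc) ?_ ?_ ?_ ?_
  · intro e he
    exact h3 _ he _ ⟨e, Or.inl ⟨rfl, rfl⟩⟩
  · intro e he
    exact h3 _ he _ ⟨e, Or.inr ⟨rfl, rfl⟩⟩
  · obtain ⟨x, hx, e, h | h⟩ := h4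
    · exact ⟨e, Or.inl ⟨h.1, h.2 ▸ hx⟩⟩
    · exact ⟨e, Or.inr ⟨h.1, h.2 ▸ hx⟩⟩
  · obtain ⟨e, h | h⟩ := hy
    · exact ⟨e, Or.inl ⟨h.1, h.2 ▸ hyZ⟩⟩
    · exact ⟨e, Or.inr ⟨h.1, h.2 ▸ hyZ⟩⟩

/-- an edge from `v` to `W`, and an edge from `v` to the outside -/
theorem star_inter_nonempty (W : Set Vt) (v u : Vt) (hu : u ∈ W) (h : Adj e0 e1 v u) :
    (star e0 e1 v ∩ Inc e0 e1 W).Nonempty := by
  obtain ⟨e, h | h⟩ := h
  · exact ⟨e, Or.inl h.1, Or.inr (h.2 ▸ hu)⟩
  · exact ⟨e, Or.inr h.1, Or.inl (h.2 ▸ hu)⟩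

theorem star_diff_nonempty (W : Set Vt) (v u : Vt) (hv : v ∉ W) (hu : u ∉ W)
    (h : Adj e0 e1 v u) :
    (star e0 e1 v \ (star e0 e1 v ∩ Inc e0 e1 W)).Nonempty := by
  obtain ⟨e, h | h⟩ := h
  · refine ⟨e, Or.inl h.1, ?_⟩
    rintro ⟨-, h' | h'⟩
    · exact hv (h.1 ▸ h')
    · exact hu (h.2 ▸ h')
  · refine ⟨e, Or.inr h.1, ?_⟩
    rintro ⟨-, h' | h'⟩
    · exact hu (h.2 ▸ h')
    · exact hv (h.1 ▸ h')

include hne h1 h2 in
/-- exhausting a component: the later part -/
theorem comp_tail [DecidableEq Vt] (hNC : NoCut e0 e1) (W : Set Vt) (B : Finset Vt)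
    (hWB : ∀ v ∈ B, v ∉ W) (hB : Conn (Adj e0 e1) B)
    (hcl : ∀ x ∈ B, ∀ y, Adj e0 e1 x y → y ∈ B) (n : ℕ) :
    ∀ Y : Finset Vt, Y ⊆ B → Conn (Adj e0 e1) Y → Y ≠ B → Y.card = n + 1 →
      Th (K := K) a e0 e1 (W ∪ B) ≤
        Th (K := K) a e0 e1 (W ∪ (B \ Y : Finset Vt)) + ∑ v ∈ Y, ((r v : ℤ) - 1) + 1 := by
  induction n with
  | zero =>
    intro Y hYB hY hne' hcard
    obtain ⟨v, rfl⟩ := Finset.card_eq_one.1 hcard
    have hvB : v ∈ B := hYB (Finset.mem_singleton_self v)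
    have h3 := Th_le (K := K) a e0 e1 hne r h1 h2 (W ∪ (B \ {v} : Finset Vt)) v (by
      rintro (h | h)
      · exact hWB v hvB h
      · simp at h)
    have h4 : insert v (W ∪ ((B \ {v} : Finset Vt) : Set Vt)) = W ∪ B := by
      ext x
      simp only [Set.mem_insert_iff, Set.mem_union, Finset.mem_coe, Finset.mem_sdiff,
        Finset.mem_singleton]
      constructor
      · rintro (rfl | h | h)
        · exact Or.inr hvB
        · exact Or.inl h
        · exact Or.inr h.1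
      · rintro (h | h)
        · exact Or.inr (Or.inl h)
        · by_cases hx : x = v
          · exact Or.inl hx
          · exact Or.inr (Or.inr ⟨h, hx⟩)
    rw [h4] at h3
    rw [Finset.sum_singleton]
    linarith
  | succ n ih =>
    intro Y hYB hY hne' hcard
    obtain ⟨v, hv, ⟨u, hu, huv⟩, hconn⟩ := exists_next (Adj_symm e0 e1) (noCut_adj e0 e1 hNC)
      B Y hYB hB hY hne' (by omega) hcl
    have hvB := hYB hv
    have hvW : v ∉ W ∪ ((B \ Y : Finset Vt) : Set Vt) := by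
      rintro (h | h)
      · exact hWB v hvB h
      · rw [Finset.mem_coe, Finset.mem_sdiff] at h
        exact h.2 hv
    have hA := star_inter_nonempty e0 e1 (W ∪ ((B \ Y : Finset Vt) : Set Vt)) v u (Or.inr hu) huv
    have hYv : (Y.erase v).Nonempty := by
      apply Finset.card_pos.1
      rw [Finset.card_erase_of_mem hv]
      omega
    -- an edge from `v` to `Y \ v`
    obtain ⟨x, hx, y, hy, hxy⟩ := hY {v} (Finset.singleton_subset_iff.2 hv)
      (Finset.singleton_nonempty v) (by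
        rintro rfl
        rw [Finset.card_singleton] at hcard
        omega)
    rw [Finset.mem_singleton] at hx
    subst hx
    rw [Finset.mem_sdiff] at hy
    have hBn := star_diff_nonempty e0 e1 (W ∪ ((B \ Y : Finset Vt) : Set Vt)) x y hvW (by
      rintro (h | h)
      · exact hWB y (hYB hy.1) h
      · rw [Finset.mem_coe, Finset.mem_sdiff] at h
        exact h.2 hy.1) hxy
    have h3 := Th_lt (K := K) a e0 e1 hne r h2 _ x hvW hA hBn
    have h4 := ih (Y.erase x) ((Finset.erase_subset _ _).trans hYB) hconn (by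
      intro h
      have : x ∈ Y.erase x := by rw [h]; exact hvB
      exact (Finset.mem_erase.1 this).1 rfl) (by
      rw [Finset.card_erase_of_mem hv]
      omega)
    have h5 : insert x (W ∪ ((B \ Y : Finset Vt) : Set Vt)) =
        W ∪ ((B \ Y.erase x : Finset Vt) : Set Vt) := by
      ext z
      simp only [Set.mem_insert_iff, Set.mem_union, Finset.mem_coe, Finset.mem_sdiff,
        Finset.mem_erase]
      constructor
      · rintro (rfl | h | h)
        · exact Or.inr ⟨hvB, fun h => h.1 rfl⟩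
        · exact Or.inl h
        · exact Or.inr ⟨h.1, fun h' => h.2 h'.2⟩
      · rintro (h | h)
        · exact Or.inr (Or.inl h)
        · by_cases hz : z = x
          · exact Or.inl hz
          · exact Or.inr (Or.inr ⟨h.1, fun h' => h.2 ⟨hz, h'⟩⟩)
    rw [h5] at h3
    have h6 : ∑ v ∈ Y, ((r v : ℤ) - 1) = ((r x : ℤ) - 1) + ∑ v ∈ Y.erase x, ((r v : ℤ) - 1) :=
      (Finset.add_sum_erase Y _ hv).symm
    rw [h6]
    linarith

include hne h1 h2 in
/-- exhausting a component -/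
theorem comp_all [DecidableEq Vt] (hNC : NoCut e0 e1) (W : Set Vt) (B : Finset Vt)
    (hWB : ∀ v ∈ B, v ∉ W) (hB : Conn (Adj e0 e1) B)
    (hcl : ∀ x ∈ B, ∀ y, Adj e0 e1 x y → y ∈ B) (hB2 : 2 ≤ B.card) :
    Th (K := K) a e0 e1 (W ∪ B) ≤
      Th (K := K) a e0 e1 W + ∑ v ∈ B, ((r v : ℤ) - 1) + 2 := by
  have hirr : ∀ x, ¬ Adj e0 e1 x x := by
    rintro x ⟨e, h | h⟩
    · exact hne e (h.1.trans h.2.symm)
    · exact hne e (h.2.trans h.1.symm)
  obtain ⟨v, hv⟩ : B.Nonempty := Finset.card_pos.1 (by omega)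
  have h3 := Th_le (K := K) a e0 e1 hne r h1 h2 W v (hWB v hv)
  have h4 := comp_tail (K := K) a e0 e1 hne r h1 h2 hNC W B hWB hB hcl (B.card - 2) (B.erase v)
    (Finset.erase_subset _ _)
    (conn_erase (Adj_symm e0 e1) hirr (noCut_adj e0 e1 hNC) B hB hcl v hv) (by
      intro h
      have : v ∈ B.erase v := by rw [h]; exact hv
      exact (Finset.mem_erase.1 this).1 rfl) (by
      rw [Finset.card_erase_of_mem hv]
      omega)
  have h5 : W ∪ ((B \ B.erase v : Finset Vt) : Set Vt) = insert v W := by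
    ext z
    simp only [Set.mem_insert_iff, Set.mem_union, Finset.mem_coe, Finset.mem_sdiff,
      Finset.mem_erase]
    constructor
    · rintro (h | h)
      · exact Or.inr h
      · left
        by_contra hz
        exact h.2 ⟨hz, h.1⟩
    · rintro (rfl | h)
      · exact Or.inr ⟨hv, fun h => h.1 rfl⟩
      · exact Or.inl h
  rw [h5] at h4
  have h6 : ∑ v ∈ B, ((r v : ℤ) - 1) = ((r v : ℤ) - 1) + ∑ v ∈ B.erase v, ((r v : ℤ) - 1) :=
    (Finset.add_sum_erase B _ hv).symm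
  rw [h6]
  linarith

theorem graph_rank_aux (hinc : ∀ v, ∃ e, e0 e = v ∨ e1 e = v) (hne : ∀ e, e0 e ≠ e1 e) (r : Vt → ℕ)
    (h1 : ∀ v, finrank K (Submodule.span K (a '' {e | e0 e = v ∨ e1 e = v})) ≤ r v)
    (h2 : ∀ v, ∀ S : Set E, S ⊆ {e | e0 e = v ∨ e1 e = v} → S.Nonempty →
      ({e | e0 e = v ∨ e1 e = v} \ S).Nonempty →
      2 * finrank K (Submodule.span K (a '' {e | e0 e = v ∨ e1 e = v})) + 1 ≤
        finrank K (Submodule.span K (a '' S)) +
        finrank K (Submodule.span K (a '' ({e | e0 e = v ∨ e1 e = v} \ S))) + r v)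
    (hNC : NoCut e0 e1) :
    ∃ (Q : Type) (_ : Fintype Q) (cl : Vt → Q), Function.Surjective cl ∧
      (∀ e, cl (e0 e) = cl (e1 e)) ∧
      2 * finrank K (Submodule.span K (Set.range a)) + Fintype.card Vt ≤
        ∑ v, r v + 2 * Fintype.card Q := by
  classical
  let st : Setoid Vt := Relation.EqvGen.setoid (Adj e0 e1)
  let Q := Quotient st
  letI : Fintype Q := Fintype.ofFinite Q
  let cl : Vt → Q := Quotient.mk st
  have hadj : ∀ x y, Adj e0 e1 x y → cl x = cl y := fun x y h =>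
    Quotient.sound (Relation.EqvGen.rel _ _ h)
  refine ⟨Q, inferInstance, cl, Quotient.mk_surjective, fun e => hadj _ _ ⟨e, Or.inl ⟨rfl, rfl⟩⟩, ?_⟩
  let B : Q → Finset Vt := fun q => Finset.univ.filter fun v => cl v = q
  have hBmem : ∀ q v, v ∈ B q ↔ cl v = q := fun q v => by simp [B]
  -- the classes are connected
  have hconn : ∀ q, Conn (Adj e0 e1) (B q) := by
    intro q Z hZ hZne hZB
    by_contra hcon
    push Not at hcon
    obtain ⟨z, hz⟩ := hZne
    have h3 : ∀ x y, Relation.EqvGen (Adj e0 e1) x y → (x ∈ Z ↔ y ∈ Z) := by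
      intro x y h
      induction h with
      | rel x y h =>
        have hxy := hadj x y h
        constructor
        · intro hx
          by_contra hy
          refine hcon x hx y (Finset.mem_sdiff.2 ⟨?_, hy⟩) h
          rw [hBmem, ← hxy, ← hBmem]
          exact hZ hx
        · intro hy
          by_contra hx
          refine hcon y hy x (Finset.mem_sdiff.2 ⟨?_, hx⟩) (Adj_symm e0 e1 _ _ h)
          rw [hBmem, hxy, ← hBmem]
          exact hZ hy
      | refl x => exact Iff.rfl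
      | symm x y _ ih => exact ih.symm
      | trans x y z _ _ ih1 ih2 => exact ih1.trans ih2
    apply hZB
    apply Finset.Subset.antisymm hZ
    intro y hy
    have h4 : cl z = cl y := by
      rw [(hBmem q z).1 (hZ hz), (hBmem q y).1 hy]
    exact (h3 z y (Quotient.exact h4)).1 hz
  have hclosed : ∀ q, ∀ x ∈ B q, ∀ y, Adj e0 e1 x y → y ∈ B q := by
    intro q x hx y hxy
    rw [hBmem, ← hadj x y hxy, ← hBmem]
    exact hx
  have hcard2 : ∀ q, 2 ≤ (B q).card := by
    intro q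
    obtain ⟨v, hv⟩ := Quotient.mk_surjective (s := st) q
    have hvB : v ∈ B q := (hBmem q v).2 hv
    obtain ⟨e, he⟩ := hinc v
    obtain ⟨w, hwv, hw⟩ : ∃ w, w ≠ v ∧ Adj e0 e1 v w := by
      rcases he with h | h
      · exact ⟨e1 e, fun h' => hne e (h.trans h'.symm), e, Or.inl ⟨h, rfl⟩⟩
      · exact ⟨e0 e, fun h' => hne e (h'.trans h.symm), e, Or.inr ⟨h, rfl⟩⟩
    have hwB := hclosed q v hvB w hw
    exact Finset.one_lt_card.2 ⟨v, hvB, w, hwB, hwv.symm⟩
  -- sum over the classes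
  have hsum : ∀ T : Finset Q, Th (K := K) a e0 e1 {v | cl v ∈ T} ≤
      Th (K := K) a e0 e1 ∅ + ∑ q ∈ T, ∑ v ∈ B q, ((r v : ℤ) - 1) + 2 * T.card := by
    intro T
    induction T using Finset.induction_on with
    | empty =>
      have : {v : Vt | cl v ∈ (∅ : Finset Q)} = ∅ := by
        ext v
        simp
      rw [this]
      simp
    | insert q T hq ih =>
      have h3 : {v : Vt | cl v ∈ insert q T} = {v : Vt | cl v ∈ T} ∪ (B q : Set Vt) := by
        ext v
        simp only [Set.mem_ofPred_eq, Finset.mem_insert, Set.mem_union, Finset.mem_coe, hBmem]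
        tauto
      rw [h3, Finset.sum_insert hq, Finset.card_insert_of_notMem hq]
      have h4 := comp_all (K := K) a e0 e1 hne r h1 h2 hNC {v : Vt | cl v ∈ T} (B q) (by
        intro v hv hvT
        rw [hBmem] at hv
        have : cl v ∈ T := hvT
        rw [hv] at this
        exact hq this) (hconn q) (hclosed q) (hcard2 q)
      push_cast
      linarith
  have h3 := hsum Finset.univ
  have huniv : {v : Vt | cl v ∈ (Finset.univ : Finset Q)} = Set.univ := by
    ext v
    simp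
  rw [huniv] at h3
  have hIu : Inc e0 e1 Set.univ = Set.univ := by
    ext e
    simp [Inc]
  have hIe : Inc e0 e1 (∅ : Set Vt) = ∅ := by
    ext e
    simp [Inc]
  have h4 : Th (K := K) a e0 e1 Set.univ = finrank K (Submodule.span K (Set.range a)) := by
    unfold Th
    rw [Set.compl_univ, hIu, hIe, rk_empty]
    unfold rk
    rw [Set.image_univ]
    simp
  have h5 : Th (K := K) a e0 e1 ∅ = - (finrank K (Submodule.span K (Set.range a)) : ℤ) := by
    unfold Th
    rw [Set.compl_empty, hIu, hIe, rk_empty]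
    unfold rk
    rw [Set.image_univ]
    simp
  have h6 : ∑ q ∈ (Finset.univ : Finset Q), ∑ v ∈ B q, ((r v : ℤ) - 1) =
      ∑ v, ((r v : ℤ) - 1) :=
    Finset.sum_fiberwise _ _ _
  rw [h4, h5, h6, Finset.sum_sub_distrib] at h3
  simp only [Finset.sum_const, Finset.card_univ, smul_eq_mul, mul_one, nsmul_eq_mul] at h3
  have h7 : ((∑ v, r v : ℕ) : ℤ) = ∑ v, (r v : ℤ) := by push_cast; rfl
  rw [← h7] at h3
  omega

end rank

/-- **QP-L3.** -/
theorem graph_rank {K : Type u} [Field K] {E Vt : Type} [Fintype E] [Fintype Vt] {M : Type u}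
    [AddCommGroup M] [Module K M] (a : E → M) (e0 e1 : E → Vt) (hne : ∀ e, e0 e ≠ e1 e)
    (r : Vt → ℕ) (hinc : ∀ v, ∃ e, e0 e = v ∨ e1 e = v)
    (h1 : ∀ v, finrank K (Submodule.span K (a '' {e | e0 e = v ∨ e1 e = v})) ≤ r v)
    (h2 : ∀ v, ∀ S : Set E, S ⊆ {e | e0 e = v ∨ e1 e = v} → S.Nonempty →
      ({e | e0 e = v ∨ e1 e = v} \ S).Nonempty →
      2 * finrank K (Submodule.span K (a '' {e | e0 e = v ∨ e1 e = v})) + 1 ≤
        finrank K (Submodule.span K (a '' S)) +
        finrank K (Submodule.span K (a '' ({e | e0 e = v ∨ e1 e = v} \ S))) + r v)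
    (hNC : NoCut e0 e1) :
    ∃ (Q : Type) (_ : Fintype Q) (cl : Vt → Q), Function.Surjective cl ∧
      (∀ e, cl (e0 e) = cl (e1 e)) ∧
      2 * finrank K (Submodule.span K (Set.range a)) + Fintype.card Vt ≤
        ∑ v, r v + 2 * Fintype.card Q :=
  graph_rank_aux a e0 e1 hinc hne r h1 h2 hNC

end Pool.Agent.Helper47.QPL3
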